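import Pool.Agent.Helper29.BL.ADD
import Pool.Agent.Helper29.BL.PS
namespace Pool.Agent.Helper55.BL
open Pool.Agent.Helper29.BL
open WeierstrassCurve Height Height.AdmissibleAbsValues Polynomial

noncomputable section

/-- the quadratic relation for `x(P-Q)` -/
lemma quad_rel (h1 : ADD) (h2 : DBL) (F : Type) [Field F] [DecidableEq F] (W : Affine F)
    (P Q : W.Point) (hP : P ≠ 0) (hQ : Q ≠ 0) (hPQ : P ≠ Q) :
    Sf W (xc Q) (xc P) = Tf W (xc Q) (xc P) * xc (P - Q) -
      Uf (xc Q) (xc P) * xc (P - Q) ^ 2 := by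
  by_cases h : P = -Q
  · have hx : xc P = xc Q := ((xeq F W).1 P Q hP hQ).mpr (Or.inr h)
    have hQ' : P - Q = P + P := by
      rw [sub_eq_add_neg, ← h]
    have hne : P + P ≠ 0 := by
      rw [← hQ']; exact sub_ne_zero.mpr hPQ
    obtain ⟨_, h3⟩ := (h2 F W P hP).2 hne
    rw [hQ', ← hx]
    have e1 : Sf W (xc P) (xc P) = Af W (xc P) := by unfold Sf Af; ring
    have e2 : Tf W (xc P) (xc P) = Bf W (xc P) := by unfold Tf Bf; ring
    have e3 : Uf (xc P) (xc P) = 0 := by unfold Uf; ring
    rw [e1, e2, e3, ← h3]; ring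
  · obtain ⟨_, h3, h4⟩ := h1 F W P Q hP hQ hPQ h
    rw [← h3, ← h4]; ring

lemma real_arch_aux {A C β E S T U : ℝ} (hβ : 1 ≤ β) (hE : 1 ≤ E) (hA : 19 * β * E < A)
    (hAC : A ≤ C) (hS : A ^ 2 * C ^ 2 - β * (A * C) - β * (A + C) - β ≤ S)
    (hT : T ≤ 2 * ((A + C) * (A * C)) + β * (A * C) + β * (A + C) + β) (hU : U ≤ (A + C) ^ 2)
    (h : S ≤ T * E + U * E ^ 2) : False := by
  have hβE : β ≤ β * E := by nlinarith
  have hβE1 : 1 ≤ β * E := by nlinarith
  have hA19 : 19 * β ≤ A := by nlinarith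
  have hA1 : 1 ≤ A := by linarith
  have hC1 : 1 ≤ C := by linarith
  have hE0 : 0 ≤ E := by linarith
  have hu1 : A ≤ A * C := by nlinarith
  have hu2 : C ≤ A * C := by nlinarith
  have hu3 : 19 * β ≤ A * C := by linarith
  have hu4 : (1 : ℝ) ≤ A * C := by linarith
  have hu5 : 0 ≤ A * C := by linarith
  have hβ0 : 0 ≤ β := by linarith
  have s1 : β * (A * C) ≤ (A * C) * (A * C) / 19 := by
    have := mul_le_mul_of_nonneg_right hu3 hu5
    linarith
  have s2 : β * (A + C) ≤ 2 * (β * (A * C)) := by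
    have := mul_le_mul_of_nonneg_left (add_le_add hu1 hu2) hβ0
    linarith
  have s3 : β ≤ β * (A * C) := by
    have := mul_le_mul_of_nonneg_left hu4 hβ0
    linarith
  have hS' : (A * C) * (A * C) / 2 ≤ S := by
    have e : A ^ 2 * C ^ 2 = (A * C) * (A * C) := by ring
    have hp : 0 ≤ (A * C) * (A * C) := mul_nonneg hu5 hu5
    rw [e] at hS
    linarith
  have hT' : T ≤ 8 * β * (A * C) * C := by
    have t1 : 2 * ((A + C) * (A * C)) ≤ 4 * β * (A * C) * C := by
      have h1 : (A + C) * (A * C) ≤ (2 * C) * (A * C) :=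
        mul_le_mul_of_nonneg_right (by linarith) hu5
      have h2 : (A * C) * C ≤ β * ((A * C) * C) := le_mul_of_one_le_left (by positivity) hβ
      linarith
    have t2 : β * (A * C) ≤ β * (A * C) * C := le_mul_of_one_le_right (by positivity) hC1
    have t3 : β * (A + C) ≤ 2 * (β * (A * C) * C) := by linarith
    have t4 : β ≤ β * (A * C) * C := by linarith
    linarith
  have hU' : U ≤ 4 * C ^ 2 := by
    have : (A + C) ^ 2 ≤ (2 * C) ^ 2 := pow_le_pow_left₀ (by linarith) (by linarith) 2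
    linarith
  have hE2 : 0 ≤ E ^ 2 := by positivity
  have h3 : (A * C) * (A * C) / 2 ≤ 8 * β * (A * C) * C * E + 4 * C ^ 2 * E ^ 2 := by
    have k1 := mul_le_mul_of_nonneg_right hT' hE0
    have k2 := mul_le_mul_of_nonneg_right hU' hE2
    linarith
  have hC2 : 0 < C ^ 2 := by positivity
  have h4 : C ^ 2 * (A ^ 2 / 2) ≤ C ^ 2 * (8 * β * A * E + 4 * E ^ 2) := by
    calc C ^ 2 * (A ^ 2 / 2) = (A * C) * (A * C) / 2 := by ring
      _ ≤ _ := h3
      _ = _ := by ring
  have h5 := le_of_mul_le_mul_left h4 hC2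
  have h6 : 19 * β * E * A < A * A := mul_lt_mul_of_pos_right hA (by linarith)
  have h7 : 3 * (β * E) * (19 * (β * E)) ≤ 3 * (β * E) * A :=
    mul_le_mul_of_nonneg_left (by linarith) (by linarith)
  have h8 : E ^ 2 ≤ (β * E) * (β * E) := by
    have : E ≤ β * E := le_mul_of_one_le_left hE0 hβ
    calc E ^ 2 = E * E := by ring
      _ ≤ _ := mul_le_mul this this hE0 (by linarith)
  nlinarith

lemma real_arch {A C β E S T U : ℝ} (hβ : 1 ≤ β) (hE : 1 ≤ E) (hA : 19 * β * E < A)
    (hC : 19 * β * E < C) (hS : A ^ 2 * C ^ 2 - β * (A * C) - β * (A + C) - β ≤ S)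
    (hT : T ≤ 2 * ((A + C) * (A * C)) + β * (A * C) + β * (A + C) + β) (hU : U ≤ (A + C) ^ 2)
    (h : S ≤ T * E + U * E ^ 2) : False := by
  rcases le_total A C with hAC | hAC
  · exact real_arch_aux hβ hE hA hAC hS hT hU h
  · exact real_arch_aux (A := C) (C := A) hβ hE hC hAC (by nlinarith) (by nlinarith)
      (by nlinarith) h

section
variable {K : Type} [Field K] (v : AbsoluteValue K ℝ)

lemma b2_le (W : Affine K) : v W.b₂ ≤ bet W v := by
  unfold bet; exact le_max_of_le_right (le_max_left _ _)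
lemma b4_le (W : Affine K) : v W.b₄ ≤ bet W v := by
  unfold bet; exact le_max_of_le_right (le_max_of_le_right (le_max_left _ _))
lemma b6_le (W : Affine K) : v W.b₆ ≤ bet W v := by
  unfold bet
  exact le_max_of_le_right (le_max_of_le_right (le_max_of_le_right (le_max_left _ _)))
lemma b8_le (W : Affine K) : v W.b₈ ≤ bet W v := by
  unfold bet
  exact le_max_of_le_right (le_max_of_le_right (le_max_of_le_right (le_max_right _ _)))

lemma sub_le' (x y : K) : v (x - y) ≤ v x + v y := by
  rw [sub_eq_add_neg]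
  refine (v.add_le _ _).trans ?_
  rw [v.map_neg]

lemma case_arch (W : Affine K) (a c e : K)
    (hrel : Sf W c a = Tf W c a * e - Uf c a * e ^ 2)
    (ha : 19 * bet W v * Mv v e < v a) (hc : 19 * bet W v * Mv v e < v c) : False := by
  have hβ := one_le_bet W v
  have hE := one_le_Mv v e
  have hβ0 : 0 ≤ bet W v := by linarith
  have hac : v (a + c) ≤ v a + v c := v.add_le _ _
  have ha0 := v.nonneg a
  have hc0 := v.nonneg c
  have heE : v e ≤ Mv v e := le_max_right _ _
  have he0 := v.nonneg e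
  refine real_arch (A := v a) (C := v c) (β := bet W v) (E := Mv v e)
    (S := v (Sf W c a)) (T := v (Tf W c a)) (U := v (Uf c a)) hβ hE ha hc ?_ ?_ ?_ ?_
  · have e1 : (a * c) ^ 2 = Sf W c a + (W.b₄ * (a * c) + W.b₆ * (a + c) + W.b₈) := by
      unfold Sf; ring
    have h1 : v ((a * c) ^ 2) ≤ v (Sf W c a) + (v (W.b₄ * (a * c)) + v (W.b₆ * (a + c)) +
        v W.b₈) := by
      rw [e1]
      refine (v.add_le _ _).trans ?_
      refine add_le_add le_rfl ?_
      refine (v.add_le _ _).trans ?_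
      exact add_le_add (v.add_le _ _) le_rfl
    have h2 : v (W.b₄ * (a * c)) ≤ bet W v * (v a * v c) := by
      rw [v.map_mul, v.map_mul]
      exact mul_le_mul_of_nonneg_right (b4_le v W) (mul_nonneg ha0 hc0)
    have h3 : v (W.b₆ * (a + c)) ≤ bet W v * (v a + v c) := by
      rw [v.map_mul]
      exact mul_le_mul (b6_le v W) hac (v.nonneg _) hβ0
    have h4 := b8_le v W
    have h5 : v ((a * c) ^ 2) = v a ^ 2 * v c ^ 2 := by
      rw [v.map_pow, v.map_mul, mul_pow]
    rw [h5] at h1
    linarith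
  · have e1 : Tf W c a = ((a + c) * (a * c) + (a + c) * (a * c)) + W.b₂ * (a * c) +
        W.b₄ * (a + c) + W.b₆ := by
      unfold Tf; ring
    have h1 : v (Tf W c a) ≤ (v ((a + c) * (a * c)) + v ((a + c) * (a * c))) +
        v (W.b₂ * (a * c)) + v (W.b₄ * (a + c)) + v W.b₆ := by
      rw [e1]
      refine (v.add_le _ _).trans (add_le_add ?_ le_rfl)
      refine (v.add_le _ _).trans (add_le_add ?_ le_rfl)
      refine (v.add_le _ _).trans (add_le_add ?_ le_rfl)
      exact v.add_le _ _
    have h2 : v ((a + c) * (a * c)) ≤ (v a + v c) * (v a * v c) := by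
      rw [v.map_mul, v.map_mul]
      exact mul_le_mul_of_nonneg_right hac (mul_nonneg ha0 hc0)
    have h3 : v (W.b₂ * (a * c)) ≤ bet W v * (v a * v c) := by
      rw [v.map_mul, v.map_mul]
      exact mul_le_mul_of_nonneg_right (b2_le v W) (mul_nonneg ha0 hc0)
    have h4 : v (W.b₄ * (a + c)) ≤ bet W v * (v a + v c) := by
      rw [v.map_mul]
      exact mul_le_mul (b4_le v W) hac (v.nonneg _) hβ0
    have h5 := b6_le v W
    linarith
  · unfold Uf
    rw [v.map_pow]
    exact pow_le_pow_left₀ (v.nonneg _) (sub_le' v a c) 2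
  · rw [hrel]
    refine (sub_le' v _ _).trans ?_
    rw [v.map_mul, v.map_mul, v.map_pow]
    refine add_le_add ?_ ?_
    · exact mul_le_mul_of_nonneg_left heE (v.nonneg _)
    · exact mul_le_mul_of_nonneg_left (pow_le_pow_left₀ he0 heE 2) (v.nonneg _)

lemma case_nonarch_aux (hv : IsNonarchimedean v) (W : Affine K) (a c e : K)
    (hrel : Sf W c a = Tf W c a * e - Uf c a * e ^ 2)
    (ha : bet W v * Mv v e < v a) (hac : v a ≤ v c) : False := by
  have hβ := one_le_bet W v
  have hE := one_le_Mv v e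
  have hβ0 : 0 ≤ bet W v := by linarith
  have hβE : bet W v ≤ bet W v * Mv v e := le_mul_of_one_le_right hβ0 hE
  have hEβ : Mv v e ≤ bet W v * Mv v e := le_mul_of_one_le_left (by linarith) hβ
  have heE : v e ≤ Mv v e := le_max_right _ _
  have he0 := v.nonneg e
  have ha1 : 1 < v a := by linarith
  have hc1 : 1 < v c := by linarith
  have hβa : bet W v < v a := by linarith
  have hapos : 0 < v a := by linarith
  have hcpos : 0 < v c := by linarith
  have hu : 0 < v a * v c := mul_pos hapos hcpos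
  have hadd : v (a + c) ≤ v c := (hv a c).trans (max_le hac le_rfl)
  have hsub : v (a - c) ≤ v c := by
    rw [sub_eq_add_neg]
    refine (hv a (-c)).trans (max_le hac ?_)
    rw [v.map_neg]
  have hcu : v c ≤ v a * v c := le_mul_of_one_le_left hcpos.le ha1.le
  have hau : v a ≤ v a * v c := le_mul_of_one_le_right hapos.le hc1.le
  have hu1 : 1 ≤ v a * v c := by linarith
  have huu : v a * v c ≤ (v a * v c) * (v a * v c) := le_mul_of_one_le_right hu.le hu1
  -- `le` and `lt` closure
  have le_add : ∀ {x y : K} {r : ℝ}, v x ≤ r → v y ≤ r → v (x + y) ≤ r :=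
    fun {x y r} hx hy => (hv x y).trans (max_le hx hy)
  have lt_add : ∀ {x y : K} {r : ℝ}, v x < r → v y < r → v (x + y) < r :=
    fun {x y r} hx hy => lt_of_le_of_lt (hv x y) (max_lt hx hy)
  set β := bet W v with hβdef
  set E := Mv v e with hEdef
  have hT : v (Tf W c a) ≤ β * (v a * v c * v c) := by
    have e1 : Tf W c a = ((a + c) * (a * c) + (a + c) * (a * c)) + W.b₂ * (a * c) +
        W.b₄ * (a + c) + W.b₆ := by
      unfold Tf; ring
    have hX : 0 < v a * v c * v c := mul_pos hu hcpos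
    have hX1 : v c ≤ v a * v c * v c := le_mul_of_one_le_left hcpos.le hu1
    have h1 : v ((a + c) * (a * c)) ≤ β * (v a * v c * v c) := by
      rw [v.map_mul, v.map_mul]
      calc v (a + c) * (v a * v c) ≤ v c * (v a * v c) := mul_le_mul_of_nonneg_right hadd hu.le
        _ = 1 * (v a * v c * v c) := by ring
        _ ≤ β * (v a * v c * v c) := mul_le_mul_of_nonneg_right hβ hX.le
    rw [e1]
    refine le_add (le_add (le_add (le_add h1 h1) ?_) ?_) ?_
    · rw [v.map_mul, v.map_mul]
      exact mul_le_mul (b2_le v W) (le_mul_of_one_le_right hu.le hc1.le) hu.le hβ0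
    · rw [v.map_mul]
      exact mul_le_mul (b4_le v W) (hadd.trans hX1) (v.nonneg _) hβ0
    · exact (b6_le v W).trans (le_mul_of_one_le_right hβ0 (by linarith))
  have hTe : v (Tf W c a * e) < (v a * v c) * (v a * v c) := by
    rw [v.map_mul]
    calc v (Tf W c a) * v e ≤ β * (v a * v c * v c) * E :=
          mul_le_mul hT heE he0 (mul_nonneg hβ0 (mul_pos hu hcpos).le)
      _ = (β * E) * (v a * v c * v c) := by ring
      _ < v a * (v a * v c * v c) := mul_lt_mul_of_pos_right ha (mul_pos hu hcpos)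
      _ = _ := by ring
  have hUe : v (-(Uf c a * e ^ 2)) < (v a * v c) * (v a * v c) := by
    rw [v.map_neg, v.map_mul, v.map_pow]
    unfold Uf
    rw [v.map_pow]
    have h1 : v (a - c) * v e < v a * v c := by
      calc v (a - c) * v e ≤ v c * E := mul_le_mul hsub heE he0 hcpos.le
        _ < v c * v a := mul_lt_mul_of_pos_left (by linarith) hcpos
        _ = _ := by ring
    have h0 : 0 ≤ v (a - c) * v e := mul_nonneg (v.nonneg _) he0
    calc v (a - c) ^ 2 * v e ^ 2 = (v (a - c) * v e) * (v (a - c) * v e) := by ring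
      _ < (v a * v c) * (v a * v c) := mul_lt_mul'' h1 h1 h0 h0
  have h4 : v (W.b₄ * (a * c)) < (v a * v c) * (v a * v c) := by
    rw [v.map_mul, v.map_mul]
    exact mul_lt_mul_of_pos_right (by
      have := b4_le v W
      linarith) hu
  have h6 : v (W.b₆ * (a + c)) < (v a * v c) * (v a * v c) := by
    rw [v.map_mul]
    have hb := b6_le v W
    calc v W.b₆ * v (a + c) ≤ β * v c := mul_le_mul hb hadd (v.nonneg _) hβ0
      _ < v a * v c := mul_lt_mul_of_pos_right hβa hcpos
      _ ≤ _ := huu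
  have h8 : v W.b₈ < (v a * v c) * (v a * v c) := by
    have hb := b8_le v W
    linarith
  have e1 : (a * c) * (a * c) = Tf W c a * e + -(Uf c a * e ^ 2) + W.b₄ * (a * c) +
      W.b₆ * (a + c) + W.b₈ := by
    have : Sf W c a = (a * c) * (a * c) - W.b₄ * (a * c) - W.b₆ * (a + c) - W.b₈ := by
      unfold Sf; ring
    rw [this] at hrel
    linear_combination hrel
  have hlt : v ((a * c) * (a * c)) < (v a * v c) * (v a * v c) := by
    rw [e1]
    exact lt_add (lt_add (lt_add (lt_add hTe hUe) h4) h6) h8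
  rw [v.map_mul, v.map_mul] at hlt
  exact lt_irrefl _ hlt

lemma Sf_symm (W : Affine K) (a c : K) : Sf W c a = Sf W a c := by unfold Sf; ring
lemma Tf_symm (W : Affine K) (a c : K) : Tf W c a = Tf W a c := by unfold Tf; ring
lemma Uf_symm (a c : K) : Uf c a = Uf a c := by unfold Uf; ring

lemma case_nonarch (hv : IsNonarchimedean v) (W : Affine K) (a c e : K)
    (hrel : Sf W c a = Tf W c a * e - Uf c a * e ^ 2)
    (ha : bet W v * Mv v e < v a) (hc : bet W v * Mv v e < v c) : False := by
  rcases le_total (v a) (v c) with h | h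
  · exact case_nonarch_aux v hv W a c e hrel ha h
  · rw [Sf_symm, Tf_symm, Uf_symm] at hrel
    exact case_nonarch_aux v hv W c a e hrel hc h

end

theorem tri_of : ADD → DBL → TRI := by
  intro h1 h2
  refine ⟨19, 1, by norm_num, ?_⟩
  intro K _ _ v W P Q hP hQ hPQ
  by_contra hcon
  push Not at hcon
  rw [pow_one] at hcon
  have hrel := quad_rel h1 h2 K W P Q hP hQ hPQ
  have hβ := one_le_bet W v
  have hE := one_le_Mv v (xc (P - Q))
  have hcst := one_le_cst v (c := 19) (by norm_num)
  have hbig : 1 ≤ cst v 19 * bet W v * Mv v (xc (P - Q)) :=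
    one_le_mul_of_one_le_of_one_le (one_le_mul_of_one_le_of_one_le hcst hβ) hE
  have hM : ∀ a : K, cst v 19 * bet W v * Mv v (xc (P - Q)) < Mv v a →
      cst v 19 * bet W v * Mv v (xc (P - Q)) < v a := by
    intro a ha
    unfold Mv at ha ⊢
    rcases lt_max_iff.mp ha with h | h
    · exfalso
      unfold Mv at hbig
      linarith
    · exact h
  obtain ⟨ha, hc⟩ := lt_min_iff.mp hcon
  have ha := hM _ ha
  have hc := hM _ hc
  by_cases hv : IsNonarchimedean v
  · rw [cst_of_nonarch hv, one_mul] at ha hc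
    exact case_nonarch v hv W _ _ _ hrel ha hc
  · rw [cst_of_not_nonarch hv] at ha hc
    exact case_arch v W _ _ _ hrel ha hc

theorem th_tri : TRI := tri_of add dbl

end

end Pool.Agent.Helper55.BL
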